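import Pool.Agent.H75.RW.Targets

/-! MP_c95a35_lc, board rwd_modules, row EVC: a random word is read as a random word of half the
length. -/

set_option autoImplicit false

open List Pool.Agent.H68.TG Pool.Agent.H75.RW

namespace Pool.Agent.H49.RW

private theorem rd_ev : ∀ w : List (Fin 3), rd false w = W (ev w)
  | [] => by simp [rd, ev, W]
  | [c] => by simp [rd, ev, W]
  | c :: d :: w => by
    have h := rd_ev w
    change img c ++ rd false w = W (c :: ev w)
    rw [W_cons, h]

private theorem avg_ev : ∀ (N : ℕ) (F : List (Fin 3) → ℝ),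
    avg N (fun w => F (ev w)) = avg ((N + 1) / 2) F
  | 0, F => rfl
  | 1, F => rfl
  | N + 2, F => by
    have e : (N + 2 + 1) / 2 = (N + 1) / 2 + 1 := by omega
    rw [e]
    have h : ∀ c : Fin 3, avg (N + 1) (fun x => F (ev (c :: x))) =
        avg ((N + 1) / 2) (fun x => F (c :: x)) := by
      intro c
      have h1 : avg (N + 1) (fun x => F (ev (c :: x))) =
          (avg N (fun x => F (c :: ev x)) + avg N (fun x => F (c :: ev x)) +
          avg N (fun x => F (c :: ev x))) / 3 := rfl
      rw [h1, avg_ev N (fun x => F (c :: x))]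
      ring
    change (avg (N + 1) (fun x => F (ev (0 :: x))) + avg (N + 1) (fun x => F (ev (1 :: x))) +
      avg (N + 1) (fun x => F (ev (2 :: x)))) / 3 = _
    rw [h, h, h]
    rfl

theorem pf_EVC : T_EVC := ⟨rd_ev, avg_ev⟩

end Pool.Agent.H49.RW
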