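import Pool.Agent.H75.RW.Targets

/-! MP_c95a35_lc, board rwd_modules, row ITR: many passes. -/

set_option autoImplicit false

open List Pool.Agent.H68.TG Pool.Agent.H75.RW

namespace Pool.Agent.H49.RW

private theorem tape_len (q : Bool × List Bool) : (tape q).length = ma q.2 - cond q.1 1 0 := by
  unfold tape ma
  rw [List.length_drop]

private theorem cond_le (s : Bool) : cond s 1 0 ≤ 1 := by
  cases s <;> simp

theorem pf_ITR (hPAN : T_PAN) : T_ITR := by
  intro w k0 T s u h0 hlen
  induction T with
  | zero =>
    intro _
    refine ⟨fun _ => k0, rfl, ?_, ?_, hlen⟩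
    · intro i hi
      exact absurd hi (Nat.not_lt_zero i)
    · intro i hi
      have hi0 : i = 0 := by omega
      subst hi0
      exact h0
  | succ T ih =>
    intro hma
    obtain ⟨k, hk0, hk1, hk2, hk3⟩ := ih (fun i hi => hma i (by omega))
    have hq := hma T (by omega)
    have hq' := hma (T + 1) le_rfl
    have hT := hk2 T le_rfl
    set q := pass^[T] (s, u) with hqd
    have hp : pass^[T + 1] (s, u) = pass q := by
      rw [Function.iterate_succ_apply']
    have hl := tape_len q
    have hc := cond_le q.1
    obtain ⟨n, hn1, hn2, hn3⟩ := hPAN q.1 q.2 (by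
      have : (tape (q.1, q.2)).length = ma q.2 - cond q.1 1 0 := hl
      omega)
    have hc2 := cond_le (st q.1 q.2)
    have hn1' : 2 * n = ma q.2 - cond q.1 1 0 + cond (st q.1 q.2) 1 0 := by
      rw [hn1]
      have : (tape (q.1, q.2)).length = ma q.2 - cond q.1 1 0 := hl
      omega
    refine ⟨fun i => if i ≤ T then k i else k T + n, ?_, ?_, ?_, ?_⟩
    · simp [hk0]
    · intro i hi
      by_cases hiT : i < T
      · simp only [if_pos (by omega : i + 1 ≤ T), if_pos (by omega : i ≤ T)]
        exact hk1 i hiT
      · have hiT' : i = T := by omega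
        subst hiT'
        simp only [if_neg (by omega : ¬ i + 1 ≤ i), if_pos (le_refl i)]
        rw [← hqd]
        have h1 : (2 * n : ℕ) ≤ ma q.2 + 1 := by omega
        have h2 : ma q.2 ≤ (2 * n : ℕ) + 1 := by omega
        have h1' : (2 * n : ℝ) ≤ ma q.2 + 1 := by exact_mod_cast h1
        have h2' : (ma q.2 : ℝ) ≤ 2 * n + 1 := by exact_mod_cast h2
        rw [abs_le]
        push_cast
        constructor <;> linarith
    · intro i hi
      by_cases hiT : i ≤ T
      · simp only [if_pos hiT]
        exact hk2 i hiT
      · have hiT' : i = T + 1 := by omega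
        subst hiT'
        simp only [if_neg hiT]
        rw [hp, Nat.add_comm (k T) n, Function.iterate_add_apply, hT]
        exact hn2
    · intro j hj
      simp only [if_neg (by omega : ¬ T + 1 ≤ T)] at hj
      by_cases hjk : j ≤ k T
      · exact hk3 j hjk
      · obtain ⟨j', rfl⟩ : ∃ j', j = j' + k T := ⟨j - k T, by omega⟩
        rw [Function.iterate_add_apply, hT]
        by_cases hjn : j' < n
        · exact hn3 j' hjn
        · have hjn' : j' = n := by omega
          subst hjn'
          have e : step^[j'] (tape q) = tape (pass q) := hn2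
          rw [e, tape_len, ← hp]
          have := cond_le (pass^[T + 1] (s, u)).1
          omega

end Pool.Agent.H49.RW
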