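import Pool.Agent.H75.RW.Targets

/-! MP_c95a35_lc, board rwd_modules, row RAW: reading an arbitrary word. -/

set_option autoImplicit false

open List Pool.Agent.H68.TG Pool.Agent.H75.RW

namespace Pool.Agent.H49.RW

private theorem img_len (c : Fin 3) : 1 ≤ (emb (img c)).length := by
  fin_cases c <;> simp [img, emb]

private theorem raw_aux : ∀ (w : List (Fin 3)) (o : List Bool), 4 ≤ w.length + 2 * (emb o).length →
    step^[(w.length + 1) / 2] (w ++ emb o) = (emb (o ++ rd false w)).drop (cond w.length.bodd 1 0) ∧
    ∀ j ≤ (w.length + 1) / 2, 2 ≤ (step^[j] (w ++ emb o)).length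
  | [], o, h => by
    refine ⟨by simp [rd], ?_⟩
    intro j hj
    have hj0 : j = 0 := by simpa using hj
    subst hj0
    simp only [length_nil, zero_add] at h
    simp only [Function.iterate_zero, id_eq, nil_append]
    omega
  | [c], o, h => by
    have he : 2 ≤ (emb o).length := by
      simp only [length_singleton] at h
      omega
    have h1 : step ([c] ++ emb o) = (emb (o ++ img c)).drop 1 := by
      rw [Pool.Agent.H43.TG.emb_append, List.drop_append_of_le_length (by omega),
        ← Pool.Agent.H43.TG.prd_emb]
      simp [step]
    refine ⟨?_, ?_⟩
    · have hr : rd false [c] = img c := by simp [rd]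
      have hb : [c].length.bodd = true := by simp
      have hn : ([c].length + 1) / 2 = 1 := by simp
      rw [hr, hb, hn, Function.iterate_one, h1]
      rfl
    · intro j hj
      have hj1 : j = 0 ∨ j = 1 := by
        simp only [length_singleton] at hj
        omega
      rcases hj1 with rfl | rfl
      · simp only [Function.iterate_zero, id_eq, length_append, length_singleton]
        omega
      · change 2 ≤ (step ([c] ++ emb o)).length
        rw [h1, List.length_drop, Pool.Agent.H43.TG.emb_append, List.length_append]
        have := img_len c
        omega
  | c :: d :: w, o, h => by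
    have hi := img_len c
    have h0 : 4 ≤ w.length + 2 * (emb (o ++ img c)).length := by
      rw [Pool.Agent.H43.TG.emb_append, List.length_append]
      simp only [length_cons] at h
      omega
    obtain ⟨i1, i2⟩ := raw_aux w (o ++ img c) h0
    have hs : step ((c :: d :: w) ++ emb o) = w ++ emb (o ++ img c) := by
      rw [Pool.Agent.H43.TG.emb_append, ← Pool.Agent.H43.TG.prd_emb, ← List.append_assoc]
      simp [step]
    have hn : ((c :: d :: w).length + 1) / 2 = (w.length + 1) / 2 + 1 := by
      simp only [length_cons]
      omega
    have hb : (c :: d :: w).length.bodd = w.length.bodd := by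
      simp [Nat.bodd_succ]
    refine ⟨?_, ?_⟩
    · rw [hn, Function.iterate_succ_apply, hs, i1, hb]
      have : o ++ img c ++ rd false w = o ++ rd false (c :: d :: w) := by
        simp [rd]
      rw [this]
    · intro j hj
      rw [hn] at hj
      cases j with
      | zero =>
        simp only [Function.iterate_zero, id_eq, length_append, length_cons]
        omega
      | succ j =>
        rw [Function.iterate_succ_apply, hs]
        exact i2 j (by omega)

theorem pf_RAW : T_RAW := by
  intro w hw
  have h := raw_aux w [] (by omega)
  have e : w ++ emb [] = w := by simp [emb]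
  rw [e] at h
  simpa [tape] using h

end Pool.Agent.H49.RW
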