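import Pool.Agent.H70.RW.T

/-!
# STA: the blocks of the instances of length `L` can be replaced by random blocks
-/

set_option autoImplicit false

namespace Pool.Agent.H49.RW

open Finset Filter Pool.Agent.H6.NB Pool.Agent.H70.OQ Pool.Agent.H78.XQ Pool.Agent.H70.RW
open Pool.Agent.H70.RC (Term DNF pv fv psat run Bad Arry Right RightP sec arrp)
open Pool.Agent.H70.RK (Adp Qst EasyK EasyKP sbs MajAt Ac flat TR bl tm dn vt can cv Gt gmap gval gbs gsz Ce
  dwn sti Hn adr red gd WC Lt)

section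

variable {n N : ℕ}

theorem mw_nonneg (hMAS : T_MAS) (L : ℕ) (a : Ad n N) (p : Bi n N) (c : CB (hl p)) :
    0 ≤ mw L a p c := by
  unfold mw
  split_ifs
  · exact ((hMAS _ _ (rns (hl p)) _).2.2 _).1 c
  · exact (hMAS _ _ 0 _).1 c

theorem mw_sum (hMAS : T_MAS) (L : ℕ) (a : Ad n N) (p : Bi n N) :
    ∑ c, mw L a p c ≤ 1 := by
  unfold mw
  split_ifs
  · exact ((hMAS _ _ (rns (hl p)) _).2.2 _).2
  · exact (hMAS _ _ 0 _).2.1.le

/-- larger size -/
theorem Cl_size {V : Type} {S S' : ℕ} (h : S ≤ S') :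
    ∀ (d : ℕ) (f : (V → Bool) → Bool), Cl V S d f → Cl V S' d f := by
  intro d
  induction d with
  | zero => intro f hf; exact hf
  | succ d ih =>
    intro f hf
    obtain ⟨m, g, b, hm, hg, hf⟩ := hf
    exact ⟨m, g, b, hm.trans h, fun i => ih _ (hg i), hf⟩

/-- substitution of constants and variables -/
theorem Cl_subst {V V' : Type} {S : ℕ} (bv : (V' → Bool) → V → Bool) (hbv : Lt bv) :
    ∀ (d : ℕ) (f : (V → Bool) → Bool), Cl V S d f → Cl V' S d fun y => f (bv y) := by
  intro d
  induction d with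
  | zero =>
    intro f hf
    rcases hf with ⟨b, hb⟩ | ⟨v, hv⟩
    · exact Or.inl ⟨b, fun y => hb _⟩
    · rcases hbv v with ⟨b, hb⟩ | ⟨v', hv'⟩
      · exact Or.inl ⟨b, fun y => (hv _).trans (hb y)⟩
      · exact Or.inr ⟨v', fun y => (hv _).trans (hv' y)⟩
  | succ d ih =>
    intro f hf
    obtain ⟨m, g, b, hm, hg, hf⟩ := hf
    exact ⟨m, fun i y => g i (bv y), b, hm, fun i => ih _ (hg i), fun y => hf _⟩

/-- the formula applied to oracles whose bits are constants and variables -/
theorem Cl_form (hCLB : Pool.Agent.H6.NB.T_CLB) {V : Type} {d m r : ℕ}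
    {W : (List Bool → Bool) → Bool} (hW : Ac d m W) (hm : m ≤ 2 ^ r ^ 2) (hd : d ≤ r) (b : Bool)
    (O : (V → Bool) → List Bool → Bool) (hO : Lt O) :
    Cl V (2 ^ 2 ^ r ^ 2) (r + 2) fun c => decide (W (O c) = b) := by
  obtain ⟨p, hp, hWp⟩ := hW
  have hS : 2 ^ m ≤ 2 ^ 2 ^ r ^ 2 := Nat.pow_le_pow_right (by norm_num) hm
  have hS2 : 2 ≤ 2 ^ 2 ^ r ^ 2 := by
    calc 2 = 2 ^ 1 := (pow_one 2).symm
      _ ≤ 2 ^ 2 ^ r ^ 2 := Nat.pow_le_pow_right (by norm_num) Nat.one_le_two_pow
  obtain ⟨_, hmono, hgate, _⟩ := hCLB V (2 ^ 2 ^ r ^ 2) hS2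
  have h1 : Cl V (2 ^ 2 ^ r ^ 2) d fun c => W (O c) := by
    have h2 := Cl_subst (S := 2 ^ m) (fun (c : V → Bool) (w : {w : List Bool // w.length ≤ m}) =>
      O c w.1) (fun w => hO w.1) d p hp
    have h3 := Cl_size hS d _ h2
    have h4 : (fun c => W (O c)) = fun c => p fun w => O c w.1 := by
      funext c
      exact hWp _
    rw [h4]
    exact h3
  have h2 : Cl V (2 ^ 2 ^ r ^ 2) (d + 1) fun c => decide (W (O c) = b) := by
    refine hgate d Unit (fun _ c => W (O c)) (fun _ => b) _ ?_ (fun _ => h1) ?_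
    · rw [Fintype.card_unit]
      omega
    · intro y
      rw [decide_eq_true_iff]
      exact ⟨fun h => ⟨(), h⟩, fun ⟨_, h⟩ => h⟩
  exact hmono (d + 1) (r + 2) _ (by omega) h2

end

theorem pf_STA (hHYC : Pool.Agent.H70.RK.T_HYC) (hBLX : Pool.Agent.H78.XQ.T_BLX)
    (hMAS : Pool.Agent.H78.XQ.T_MAS) (hCLB : Pool.Agent.H6.NB.T_CLB)
    (hSTR : Pool.Agent.H70.RW.T_STR) (hPLN : Pool.Agent.H70.RW.T_PLN) :
    Pool.Agent.H70.RW.T_STA := by
  intro d m κ V n N L D X a g W b hnL hLN hW hd hm
  refine hHYC (Bi n N) (fun p => CB (hl p)) (mw L a) (mw (L + 1) a)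
    (fun P => if W (lev V (ina n N D X a g P) (L + 1)) = b then 1 else 0)
    (fun p => if p.1.1.length = L then (1 / 8 : ℝ) ^ (p.1.1.length + 20) else 0)
    (mw_nonneg hMAS L a) (mw_sum hMAS L a) (mw_nonneg hMAS (L + 1) a) (mw_sum hMAS (L + 1) a)
    (fun P => by split_ifs <;> norm_num) (fun j => by split_ifs <;> positivity) ?_
  intro j P
  by_cases hj : j.1.1.length = L
  · rw [if_pos hj]
    have hsz := hSTR.2.2.2.2 ⟨j.1.1, j.2⟩
    have hsz' : Sz (j.1.1.length + 20) (hl j).length (qs (hl j)) (rns (hl j)) (wln (hl j)) := hsz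
    have hm' : m ≤ 2 ^ (j.1.1.length + 20) ^ 2 := by
      refine hm.trans (Nat.pow_le_pow_right (by norm_num) (Nat.pow_le_pow_left ?_ 2))
      omega
    have hd' : d ≤ j.1.1.length + 20 := by omega
    have h1 := hBLX _ _ _ _ _ hsz' (a j.1 j.2.1 j.2.2)
      (fun c => decide (W (lev V (ina n N D X a g (Function.update P j c)) (L + 1)) = b))
      (by
        intro Q u h
        refine Cl_form hCLB hW hm' hd' b
          (fun c => lev V (ina n N D X a g (Function.update P j (Function.update Q u c, h))) (L + 1)) ?_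
        have h2 := ((hPLN κ V n N L D X a g (Function.update P j (Q, h)) hnL hLN).2.2.2.2 j hj).1 u
        simp only [Function.update_idem, Function.update_self] at h2
        exact h2)
      (by
        intro Q
        refine Cl_form hCLB hW hm' hd' b
          (fun h => lev V (ina n N D X a g (Function.update P j (Q, h))) (L + 1)) ?_
        have h2 := ((hPLN κ V n N L D X a g (Function.update P j (Q, fun _ => false)) hnL
          hLN).2.2.2.2 j hj).2
        simp only [Function.update_idem, Function.update_self] at h2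
        exact h2)
    have hu : ∀ c, mw L a j c = m0 (qs (hl j)) (hl j).length (wln (hl j)) c := by
      intro c
      unfold mw
      rw [if_neg (by omega)]
    have hv : ∀ c, mw (L + 1) a j c = mB (qs (hl j)) (hl j).length (rns (hl j)) (wln (hl j))
        (a j.1 j.2.1 j.2.2) c := by
      intro c
      unfold mw
      rw [if_pos (by omega)]
    have hB : ∀ c, bi (decide (W (lev V (ina n N D X a g (Function.update P j c)) (L + 1)) = b)) =
        if W (lev V (ina n N D X a g (Function.update P j c)) (L + 1)) = b then (1 : ℝ) else 0 := by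
      intro c
      unfold bi
      by_cases h : W (lev V (ina n N D X a g (Function.update P j c)) (L + 1)) = b
      · rw [if_pos h, if_pos (by simpa using h)]
      · rw [if_neg h, if_neg (by simpa using h)]
    simp only [hB] at h1
    simp only [hu, hv]
    have hs0 : ∑ c, m0 (qs (hl j)) (hl j).length (wln (hl j)) c *
        (if W (lev V (ina n N D X a g (Function.update P j c)) (L + 1)) = b then (1 : ℝ) else 0) ≤
        1 := by
      refine (Finset.sum_le_sum fun c _ => ?_).trans
        (hMAS (qs (hl j)) (hl j).length 0 (wln (hl j))).2.1.le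
      have h2 := (hMAS (qs (hl j)) (hl j).length 0 (wln (hl j))).1 c
      split_ifs
      · rw [mul_one]
      · rw [mul_zero]; exact h2
    have he : (0 : ℝ) < (1 / 8) ^ (j.1.1.length + 20) := by positivity
    have h3 : (1 / 8 : ℝ) ^ (j.1.1.length + 20) / (4 * 2 ^ 2 ^ (j.1.1.length + 20)) ≤
        (1 / 8 : ℝ) ^ (j.1.1.length + 20) / 4 := by
      apply div_le_div_of_nonneg_left he.le (by norm_num)
      have h4 : (1 : ℝ) ≤ 2 ^ 2 ^ (j.1.1.length + 20) := one_le_pow₀ (by norm_num)
      linarith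
    have h5 : (1 / 8 : ℝ) ^ (j.1.1.length + 20) / 4 * ∑ c, m0 (qs (hl j)) (hl j).length
        (wln (hl j)) c *
        (if W (lev V (ina n N D X a g (Function.update P j c)) (L + 1)) = b then (1 : ℝ) else 0) ≤
        (1 / 8 : ℝ) ^ (j.1.1.length + 20) / 4 := mul_le_of_le_one_right (by positivity) hs0
    linarith
  · rw [if_neg hj, sub_zero]
    refine le_of_eq (Finset.sum_congr rfl fun c _ => ?_)
    congr 1
    unfold mw
    by_cases h : j.1.1.length < L
    · rw [if_pos h, if_pos (by omega)]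
    · rw [if_neg h, if_neg (by omega)]

end Pool.Agent.H49.RW
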